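import Mathlib

/-! Gluing two halves of two acyclic cell complexes along a common infinite connected part. -/

namespace Pool.Agent.Work.MP_3d425c_gt.Gn
open Finsupp

variable {R β ω κ : Type*} [CommRing R]

/-- boundary of chains of walls -/
noncomputable def d1 (R : Type*) [CommRing R] (src tgt : ω → β) : (ω →₀ R) →ₗ[R] (β →₀ R) :=
  linearCombination R fun f => single (tgt f) 1 - single (src f) 1

/-- boundary of chains of cells -/
noncomputable def d2 (bd : κ → ω →₀ R) : (κ →₀ R) →ₗ[R] (ω →₀ R) := linearCombination R bd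

/-- the chain lives on `P` -/
def On {α : Type*} (P : α → Prop) (x : α →₀ R) : Prop := ∀ a, x a ≠ 0 → P a

section On
variable {α : Type*} {P Q : α → Prop} {x y : α →₀ R}

theorem On.zero : On P (0 : α →₀ R) := fun _ h => absurd rfl h

theorem On.add (h : On P x) (h' : On P y) : On P (x + y) := fun a e => by
  by_cases h0 : x a = 0
  · exact h' a fun e' => e (by simp [h0, e'])
  · exact h a h0

theorem On.neg (h : On P x) : On P (-x) := fun a e => h a fun e' => e (by simp [e'])

theorem On.sub (h : On P x) (h' : On P y) : On P (x - y) := by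
  rw [sub_eq_add_neg]; exact h.add h'.neg

theorem On.smul (r : R) (h : On P x) : On P (r • x) := fun a e => h a fun e' => e (by simp [e'])

theorem On.mono (h : On P x) (hPQ : ∀ a, P a → Q a) : On Q x := fun a e => hPQ a (h a e)

theorem On.and (h : On P x) (h' : On Q x) : On (fun a => P a ∧ Q a) x := fun a e => ⟨h a e, h' a e⟩

theorem On.filter [DecidablePred Q] (h : On P x) : On (fun a => P a ∧ Q a) (x.filter Q) :=
  fun a e => by
    rw [filter_apply] at e
    split_ifs at e with hq
    · exact ⟨h a e, hq⟩
    · exact absurd rfl e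

theorem On.filter_eq [DecidablePred P] (h : On P x) : x.filter P = x :=
  (filter_eq_self_iff _ _).2 h

theorem On.filter_zero [DecidablePred Q] (h : On (fun a => ¬ Q a) x) : x.filter Q = 0 :=
  (filter_eq_zero_iff _ _).2 fun a hq => by
    by_contra e
    exact h a e hq

theorem On.single {a : α} (r : R) (h : P a) : On P (single a r) := fun b e => by
  classical
  rw [single_apply] at e
  split_ifs at e with hab
  · exact hab ▸ h
  · exact absurd rfl e

/-- induction on chains living on `P` -/
theorem On.ind (T : (α →₀ R) → Prop) (h0 : T 0) (h1 : ∀ a r, P a → T (Finsupp.single a r))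
    (h2 : ∀ x y, T x → T y → T (x + y)) (h : On P x) : T x := by
  classical
  rw [← Finsupp.sum_single x, Finsupp.sum]
  refine Finset.sum_induction _ T h2 h0 fun a ha => h1 a _ (h a (mem_support_iff.1 ha))

theorem On.lin {γ : Type*} {S : γ → Prop} (v : α → γ →₀ R) (hv : ∀ a, P a → On S (v a))
    (h : On P x) : On S (linearCombination R v x) :=
  h.ind (fun z => On S (linearCombination R v z)) (by rw [map_zero]; exact On.zero)
    (fun a r ha => by rw [linearCombination_single]; exact (hv a ha).smul r)
    fun x y a b => by rw [map_add]; exact a.add b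

theorem On.lin_filter {γ : Type*} (v : α → γ →₀ R) (s : α → Bool) (t : γ → Bool) (j : Bool)
    (hv : ∀ a, P a → On (fun c => t c = s a) (v a)) (h : On P x) :
    (linearCombination R v x).filter (fun c => t c = j) =
      linearCombination R v (x.filter fun a => s a = j) := by
  refine h.ind (fun z => (linearCombination R v z).filter (fun c => t c = j) =
    linearCombination R v (z.filter fun a => s a = j))
    (by rw [map_zero, Finsupp.filter_zero, Finsupp.filter_zero, map_zero]) (fun a r ha => ?_)
    fun x y a b => by rw [map_add, filter_add, filter_add, map_add, a, b]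
  by_cases e : s a = j
  · rw [filter_single_of_pos (p := fun a => s a = j) e, linearCombination_single]
    exact (((hv a ha).smul r).mono fun c hc => hc.trans e).filter_eq
  · rw [filter_single_of_neg (p := fun a => s a = j) e, map_zero, linearCombination_single]
    exact (((hv a ha).smul r).mono fun c hc e' => e (hc.symm.trans e')).filter_zero

theorem split (s : α → Bool) (x : α →₀ R) :
    x = x.filter (fun a => s a = false) + x.filter (fun a => s a = true) := by
  ext a
  cases h : s a <;> simp [h]

end On

/-- A chain of boxes with sum zero on a connected set is a boundary. -/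
theorem conn_fill (src tgt : ω → β) {A : ω → Prop} {V : β → Prop}
    (hc : ∀ p q, V p → V q → ∃ a : ω →₀ R, On A a ∧ d1 R src tgt a = single p 1 - single q 1)
    {b : ω →₀ R} (hb : On V (d1 R src tgt b)) : ∃ a, On A a ∧ d1 R src tgt a = d1 R src tgt b := by
  by_cases h0 : d1 R src tgt b = 0
  · exact ⟨0, On.zero, by rw [map_zero, h0]⟩
  obtain ⟨q, hq⟩ := ne_iff.1 h0
  have hq' := hb q hq
  let ε : (β →₀ R) →ₗ[R] R := linearCombination R fun _ => 1
  have e1 : ∀ z : ω →₀ R, ε (d1 R src tgt z) = 0 := fun z => by
    induction z using Finsupp.induction_linear with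
    | zero => simp
    | add x y a b => rw [map_add, map_add, a, b, add_zero]
    | single f r => simp [d1, ε]
  have := hb.ind (fun x => ∃ a, On A a ∧ d1 R src tgt a = x - ε x • single q 1)
    ⟨0, On.zero, by simp⟩
    (fun p r hp => by
      obtain ⟨a, h1, h2⟩ := hc p q hp hq'
      refine ⟨r • a, h1.smul r, ?_⟩
      rw [map_smul, h2]
      simp [ε, smul_sub])
    fun x y ⟨a, h1, h2⟩ ⟨c, h3, h4⟩ => ⟨a + c, h1.add h3, by
      rw [map_add, h2, h4, map_add, add_smul]; abel⟩
  rwa [e1, zero_smul, sub_zero] at this

/-- `wl j`, `cl j`: the walls and the cells of the old leaf number `j`; `N`: the cells along the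
cut; `Om`: the walls across which the side may jump. The new leaf takes side `j` from the old leaf
`j`. -/
theorem one_step (src tgt : ω → β) (bd : κ → ω →₀ R) (wl : Bool → ω → Prop) (cl : Bool → κ → Prop)
    (N : κ → Prop) (Om : ω → Prop) (side : β → Bool) (cside : κ → Bool)
    (dd : ∀ c, d1 R src tgt (bd c) = 0)
    (fill : ∀ j (g : ω →₀ R), On (wl j) g → d1 R src tgt g = 0 → ∃ D, On (cl j) D ∧ d2 bd D = g)
    (hwl : ∀ j c, N c → On (wl j) (bd c))
    (hOmA : ∀ f, Om f → ∃ c, N c ∧ bd c f ≠ 0)
    (hOm : ∀ j c, cl j c → ¬ N c → On (fun f => ¬ Om f ∧ side (src f) = cside c) (bd c))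
    (hside : ∀ j f, wl j f → ¬ Om f → side (tgt f) = side (src f))
    (none : ∀ j D, On (cl j) D → On (fun f => ¬ Om f) (d2 bd D) → On (fun c => ¬ N c) D)
    (conn : ∀ p q, (∃ c f, N c ∧ bd c f ≠ 0 ∧ (p = src f ∨ p = tgt f)) →
      (∃ c f, N c ∧ bd c f ≠ 0 ∧ (q = src f ∨ q = tgt f)) →
      ∃ a : ω →₀ R, On (fun f => ∃ c, N c ∧ bd c f ≠ 0) a ∧
        d1 R src tgt a = single p 1 - single q 1)
    (g : ω →₀ R) (hg : On (fun f => Om f ∨ wl (side (src f)) f) g) (hg0 : d1 R src tgt g = 0) :
    ∃ D, On (fun c => N c ∨ cl (cside c) c) D ∧ d2 bd D = g := by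
  classical
  set A : ω → Prop := fun f => ∃ c, N c ∧ bd c f ≠ 0 with hA
  have dd2 : ∀ D, d1 R src tgt (d2 bd D) = 0 := fun D => by
    induction D using Finsupp.induction_linear with
    | zero => simp
    | add x y a b => rw [map_add, map_add, a, b, add_zero]
    | single f r => simp [d2, dd]
  have Awl : ∀ j {x : ω →₀ R}, On A x → On (wl j) x := fun j x h =>
    h.mono fun f ⟨c, hc, e⟩ => hwl j c hc f e
  have NA : ∀ {D : κ →₀ R}, On A (d2 bd (D.filter N)) := fun {D} =>
    On.lin (P := fun c => True ∧ N c) bd (fun c hc f e => ⟨c, hc.2, e⟩)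
      (On.filter (P := fun _ => True) fun _ _ => trivial)
  have sp : ∀ j i {D : κ →₀ R}, On (fun c => cl j c ∧ ¬ N c) D →
      (d2 bd D).filter (fun f => side (src f) = i) = d2 bd (D.filter fun c => cside c = i) :=
    fun j i D h => On.lin_filter bd cside (fun f => side (src f)) i
      (fun c hc => (hOm j c hc.1 hc.2).mono fun f hf => hf.2) h
  have step : ∀ j, ∃ E a, On (fun c => N c ∨ cl (cside c) c) E ∧ On A a ∧
      (g.filter fun f => ¬ A f).filter (fun f => side (src f) = j) = d2 bd E + a := fun j => by
    set b := (g.filter fun f => ¬ A f).filter (fun f => side (src f) = j) with hb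
    have hB : On (fun f => wl (side (src f)) f ∧ ¬ Om f) (g.filter fun f => ¬ A f) :=
      (hg.filter (Q := fun f => ¬ A f)).mono fun f ⟨h1, h2⟩ =>
        ⟨h1.resolve_left fun h => h2 (hOmA f h), fun h => h2 (hOmA f h)⟩
    have e1 : (d1 R src tgt (g.filter fun f => ¬ A f)).filter (fun p => side p = j) =
        d1 R src tgt b :=
      On.lin_filter _ (fun f => side (src f)) side j (fun f hf =>
        (On.single (P := fun p => side p = side (src f)) (1 : R) (hside _ f hf.1 hf.2)).sub
          (On.single (P := fun p => side p = side (src f)) (1 : R) rfl)) hB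
    have e2 : d1 R src tgt (g.filter fun f => ¬ A f) = - d1 R src tgt (g.filter A) := by
      rw [eq_neg_iff_add_eq_zero, ← map_add, add_comm, filter_add_filter_not, hg0]
    have e3 : On (fun p => ∃ c f, N c ∧ bd c f ≠ 0 ∧ (p = src f ∨ p = tgt f))
        (d1 R src tgt (g.filter A)) :=
      On.lin (P := fun f => True ∧ A f) _ (fun f ⟨_, c, h1, h2⟩ =>
        (On.single 1 ⟨c, f, h1, h2, .inr rfl⟩).sub (On.single 1 ⟨c, f, h1, h2, .inl rfl⟩))
        (On.filter (P := fun _ => True) fun _ _ => trivial)
    obtain ⟨a, ha, ea⟩ := conn_fill src tgt (b := b) conn (by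
      rw [← e1, e2]; exact (e3.neg.filter (Q := fun p => side p = j)).mono fun _ h => h.1)
    have hbj : On (fun f => side (src f) = j) b :=
      (hB.filter (Q := fun f => side (src f) = j)).mono fun _ h => h.2
    obtain ⟨D, hD, eD⟩ := fill j (b - a) (((hB.filter (Q := fun f => side (src f) = j)).mono
      fun f h => h.2 ▸ h.1.1).sub (Awl j ha)) (by rw [map_sub, ea, sub_self])
    have hDB := hD.filter (Q := fun c => ¬ N c)
    have e4 : b = d2 bd (D.filter fun c => ¬ N c) + (a + d2 bd (D.filter N)) := by
      have : d2 bd (D.filter N) + d2 bd (D.filter fun c => ¬ N c) = b - a := by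
        rw [← map_add, filter_add_filter_not, eD]
      rw [← eq_sub_iff_add_eq.1 this]
      abel
    refine ⟨(D.filter fun c => ¬ N c).filter fun c => cside c = j,
      (a + d2 bd (D.filter N)).filter fun f => side (src f) = j,
      (hDB.filter (Q := fun c => cside c = j)).mono fun c h => .inr (h.2 ▸ h.1.1),
      ((ha.add NA).filter (Q := fun f => side (src f) = j)).mono fun _ h => h.1, ?_⟩
    rw [← sp j j hDB, ← filter_add, ← e4, hbj.filter_eq]
  obtain ⟨E0, a0, hE0, ha0, e0⟩ := step false
  obtain ⟨E1, a1, hE1, ha1, e1⟩ := step true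
  have eg : g = d2 bd (E0 + E1) + (g.filter A + a0 + a1) := by
    have h1 := split (fun f => side (src f)) (g.filter fun f => ¬ A f)
    rw [e0, e1] at h1
    have h2 := filter_add_filter_not g A
    rw [h1] at h2
    rw [map_add]
    refine h2.symm.trans (by abel)
  have hA2 : On A (g.filter A + a0 + a1) :=
    (((On.filter (P := fun _ => True) fun _ _ => trivial).mono fun _ h => h.2).add ha0).add ha1
  obtain ⟨D, hD, eD⟩ := fill false _ (Awl false hA2) (by
    have := congrArg (d1 R src tgt) eg
    rwa [hg0, map_add, dd2, zero_add, eq_comm] at this)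
  have hDB := hD.filter (Q := fun c => ¬ N c)
  have e5 : d2 bd (D.filter fun c => ¬ N c) = (g.filter A + a0 + a1) - d2 bd (D.filter N) := by
    rw [← eD, eq_sub_iff_add_eq, ← map_add, add_comm, filter_add_filter_not]
  have hz : On (fun f => A f ∧ side (src f) = true)
      (d2 bd ((D.filter fun c => ¬ N c).filter fun c => cside c = true)) := by
    rw [← sp false true hDB, e5]
    exact (hA2.sub NA).filter
  obtain ⟨F, hF, eF⟩ := fill true _ (Awl true (hz.mono fun _ h => h.1)) (dd2 _)
  have hFN := none true F hF (by
    rw [eF]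
    exact On.lin bd (fun c hc => (hOm false c hc.1.1 hc.1.2).mono fun _ h => h.1)
      (hDB.filter (Q := fun c => cside c = true)))
  have e6 : d2 bd (F.filter fun c => cside c = true) =
      d2 bd ((D.filter fun c => ¬ N c).filter fun c => cside c = true) := by
    rw [← sp true true (hF.and hFN), eF]
    exact (hz.mono fun _ h => h.2).filter_eq
  refine ⟨E0 + E1 + (D.filter N + ((D.filter fun c => ¬ N c).filter (fun c => cside c = false) +
    F.filter fun c => cside c = true)), (hE0.add hE1).add (((hD.filter (Q := N)).mono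
      fun _ h => .inl h.2).add (((hDB.filter (Q := fun c => cside c = false)).mono
      fun c h => .inr (h.2 ▸ h.1.1)).add ((hF.filter (Q := fun c => cside c = true)).mono
      fun c h => .inr (h.2 ▸ h.1)))), ?_⟩
  rw [map_add, map_add (d2 bd) (D.filter N), map_add (d2 bd) _ (F.filter _), e6, ← map_add,
    ← split cside, ← map_add, filter_add_filter_not, eD]
  exact eg.symm

end Pool.Agent.Work.MP_3d425c_gt.Gn
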