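import Mathlib

/-! Parity: in a finite multigraph with even degrees no arc is a bridge. -/

namespace Pool.Agent.Work.MP_3d425c_gt.Gn

/-- If a finite set `B` of arcs is a cycle mod two, the ends of any arc `z` of `B` are joined by
the other arcs of `B`. -/
theorem even_conn {A X : Type*} (src tgt : A → X) (B : Set A) (hB : B.Finite)
    (hev : ∀ x, Even ({a ∈ B | src a = x}.ncard + {a ∈ B | tgt a = x}.ncard)) {z : A}
    (hz : z ∈ B) :
    Relation.EqvGen (fun x y => ∃ a ∈ B, a ≠ z ∧ src a = x ∧ tgt a = y) (src z) (tgt z) := by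
  classical
  by_contra hn
  set R := Relation.EqvGen (fun x y => ∃ a ∈ B, a ≠ z ∧ src a = x ∧ tgt a = y) with hR
  have hE : Equivalence R := Relation.EqvGen.is_equivalence _
  obtain ⟨F, rfl⟩ := hB.exists_finset_coe
  let S : Finset X := (F.image src ∪ F.image tgt).filter fun x => R (src z) x
  have key : ∀ e : A → X, (∀ a ∈ F, e a ∈ F.image src ∪ F.image tgt) →
      ∑ x ∈ S, {a ∈ (F : Set A) | e a = x}.ncard = (F.filter fun a => R (src z) (e a)).card := by
    intro e he
    rw [Finset.card_eq_sum_card_fiberwise (f := e) (t := S)]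
    · refine Finset.sum_congr rfl fun x hx => ?_
      rw [← Set.ncard_coe_finset]
      congr 1
      ext a
      simp only [Set.mem_setOf_eq, Finset.coe_filter, Finset.mem_coe, Finset.mem_filter]
      exact ⟨fun h => ⟨⟨h.1, h.2 ▸ (Finset.mem_filter.1 hx).2⟩, h.2⟩, fun h => ⟨h.1.1, h.2⟩⟩
    · intro a ha
      have ha := Finset.mem_filter.1 (Finset.mem_coe.1 ha)
      exact Finset.mem_coe.2 (Finset.mem_filter.2 ⟨he a ha.1, ha.2⟩)
  have h1 := key src fun a ha => Finset.mem_union_left _ (Finset.mem_image_of_mem _ ha)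
  have h2 := key tgt fun a ha => Finset.mem_union_right _ (Finset.mem_image_of_mem _ ha)
  have h3 : Even (∑ x ∈ S, ({a ∈ (F : Set A) | src a = x}.ncard +
      {a ∈ (F : Set A) | tgt a = x}.ncard)) := Finset.even_sum _ fun x _ => hev x
  rw [Finset.sum_add_distrib, h1, h2] at h3
  have h4 : (F.filter fun a => R (src z) (src a)) =
      insert z (F.filter fun a => R (src z) (tgt a)) := by
    ext a
    simp only [Finset.mem_filter, Finset.mem_insert]
    by_cases haz : a = z
    · subst haz
      exact ⟨fun _ => Or.inl rfl, fun _ => ⟨hz, hE.refl _⟩⟩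
    · constructor
      · rintro ⟨ha, h⟩
        exact Or.inr ⟨ha, hE.trans h (Relation.EqvGen.rel _ _ ⟨a, ha, haz, rfl, rfl⟩)⟩
      · rintro (h | ⟨ha, h⟩)
        · exact absurd h haz
        · exact ⟨ha, hE.trans h (hE.symm (Relation.EqvGen.rel _ _ ⟨a, ha, haz, rfl, rfl⟩))⟩
  have h5 : z ∉ F.filter fun a => R (src z) (tgt a) := fun h => hn (Finset.mem_filter.1 h).2
  rw [h4, Finset.card_insert_of_notMem h5] at h3
  obtain ⟨k, hk⟩ := h3
  omega

/-- Incidence form: cells `K` (a finite set `P` of them), every arc has two sides, the boundary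
of every cell is a cycle mod two. If `z` has exactly one side in `P`, its ends are joined by other
arcs with exactly one side in `P`. -/
theorem bd_conn {A X K : Type*} (src tgt : A → X) (side : A → Bool → K)
    (hfin : ∀ c, {p : A × Bool | side p.1 p.2 = c}.Finite)
    (hev : ∀ c x, Even ({p : A × Bool | side p.1 p.2 = c ∧ src p.1 = x}.ncard +
      {p : A × Bool | side p.1 p.2 = c ∧ tgt p.1 = x}.ncard))
    (P : Set K) (hP : P.Finite) {z : A} (hz : ¬ (side z true ∈ P ↔ side z false ∈ P)) :
    Relation.EqvGen (fun x y => ∃ a, ¬ (side a true ∈ P ↔ side a false ∈ P) ∧ a ≠ z ∧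
      src a = x ∧ tgt a = y) (src z) (tgt z) := by
  classical
  obtain ⟨Q, rfl⟩ := hP.exists_finset_coe
  have hI : {p : A × Bool | side p.1 p.2 ∈ Q}.Finite := by
    refine (Q.finite_toSet.biUnion fun c _ => hfin c).subset fun p hp => ?_
    simpa using hp
  have hB : {a | ¬ (side a true ∈ (Q : Set K) ↔ side a false ∈ (Q : Set K))}.Finite := by
    refine (hI.image Prod.fst).subset fun a ha => ?_
    by_cases h : side a true ∈ Q
    · exact ⟨(a, true), h, rfl⟩
    · refine ⟨(a, false), ?_, rfl⟩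
      by_contra h'
      exact ha ⟨fun h1 => absurd h1 h, fun h1 => absurd h1 h'⟩
  refine even_conn src tgt _ hB (fun x => ?_) hz
  obtain ⟨I, hIe⟩ := hI.exists_finset_coe
  have hmem : ∀ p : A × Bool, p ∈ I ↔ side p.1 p.2 ∈ Q := fun p => by
    rw [← Finset.mem_coe, hIe]; rfl
  have key : ∀ e : A → X, ∃ k, ∑ c ∈ Q, {p : A × Bool | side p.1 p.2 = c ∧ e p.1 = x}.ncard =
      {a ∈ {a | ¬ (side a true ∈ (Q : Set K) ↔ side a false ∈ (Q : Set K))} | e a = x}.ncard +
        2 * k := by
    intro e
    have h1 : ∑ c ∈ Q, {p : A × Bool | side p.1 p.2 = c ∧ e p.1 = x}.ncard =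
        (I.filter fun p => e p.1 = x).card := by
      rw [Finset.card_eq_sum_card_fiberwise (f := fun p : A × Bool => side p.1 p.2) (t := Q)]
      · refine Finset.sum_congr rfl fun c hc => ?_
        rw [← Set.ncard_coe_finset]
        congr 1
        ext p
        simp only [Set.mem_setOf_eq, Finset.coe_filter, Finset.mem_filter, hmem]
        exact ⟨fun h => ⟨⟨h.1 ▸ hc, h.2⟩, h.1⟩, fun h => ⟨h.2, h.1.2⟩⟩
      · intro p hp
        exact Finset.mem_coe.2 ((hmem p).1 (Finset.mem_filter.1 (Finset.mem_coe.1 hp)).1)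
    let J : Finset A := (I.image Prod.fst).filter fun a => e a = x
    have h2 : (I.filter fun p => e p.1 = x).card =
        (J.filter fun a => side a true ∈ Q).card + (J.filter fun a => side a false ∈ Q).card := by
      rw [← Finset.card_filter_add_card_filter_not (s := I.filter fun p => e p.1 = x)
        (fun p => p.2 = true)]
      congr 1
      · refine Finset.card_bij (fun p _ => p.1) ?_ ?_ ?_
        · rintro ⟨a, b⟩ hp
          simp only [Finset.mem_filter, J, Finset.mem_image] at hp ⊢
          obtain ⟨⟨h1, h2⟩, rfl⟩ := hp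
          exact ⟨⟨⟨_, h1, rfl⟩, h2⟩, (hmem _).1 h1⟩
        · rintro ⟨a, b⟩ hp ⟨a', b'⟩ hp' h
          simp only [Finset.mem_filter] at hp hp'
          exact Prod.ext h (hp.2.trans hp'.2.symm)
        · intro a ha
          simp only [Finset.mem_filter, J] at ha
          exact ⟨(a, true), by simp [hmem, ha.1.2, ha.2], rfl⟩
      · refine Finset.card_bij (fun p _ => p.1) ?_ ?_ ?_
        · rintro ⟨a, b⟩ hp
          simp only [Finset.mem_filter, J, Finset.mem_image, Bool.not_eq_true] at hp ⊢
          obtain ⟨⟨h1, h2⟩, rfl⟩ := hp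
          exact ⟨⟨⟨_, h1, rfl⟩, h2⟩, (hmem _).1 h1⟩
        · rintro ⟨a, b⟩ hp ⟨a', b'⟩ hp' h
          simp only [Finset.mem_filter, Bool.not_eq_true] at hp hp'
          exact Prod.ext h (hp.2.trans hp'.2.symm)
        · intro a ha
          simp only [Finset.mem_filter, J] at ha
          exact ⟨(a, false), by simp [hmem, ha.1.2, ha.2], rfl⟩
    have h3 : {a ∈ {a | ¬ (side a true ∈ (Q : Set K) ↔ side a false ∈ (Q : Set K))} | e a = x} =
        (J.filter fun a => ¬ (side a true ∈ Q ↔ side a false ∈ Q) : Finset A) := by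
      ext a
      simp only [Set.mem_setOf_eq, Finset.coe_filter, Finset.mem_filter, J, Finset.mem_image,
        Finset.mem_coe]
      refine ⟨fun h => ⟨⟨?_, h.2⟩, h.1⟩, fun h => ⟨h.2, h.1.2⟩⟩
      by_cases h' : side a true ∈ Q
      · exact ⟨(a, true), (hmem _).2 h', rfl⟩
      · refine ⟨(a, false), (hmem _).2 ?_, rfl⟩
        by_contra h''
        exact h.1 ⟨fun h1 => absurd h1 h', fun h1 => absurd h1 h''⟩
    refine ⟨(J.filter fun a => side a true ∈ Q ∧ side a false ∈ Q).card, ?_⟩
    rw [h1, h2, h3, Set.ncard_coe_finset]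
    simp only [Finset.card_filter, Finset.mul_sum, ← Finset.sum_add_distrib]
    refine Finset.sum_congr rfl fun a _ => ?_
    by_cases h : side a true ∈ Q <;> by_cases h' : side a false ∈ Q <;> simp [h, h']
  obtain ⟨k1, h1⟩ := key src
  obtain ⟨k2, h2⟩ := key tgt
  have h3 : Even (∑ c ∈ Q, ({p : A × Bool | side p.1 p.2 = c ∧ src p.1 = x}.ncard +
      {p : A × Bool | side p.1 p.2 = c ∧ tgt p.1 = x}.ncard)) := Finset.even_sum _ fun c _ => hev c x
  rw [Finset.sum_add_distrib, h1, h2] at h3
  obtain ⟨k, hk⟩ := h3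
  exact ⟨k - k1 - k2, by omega⟩

end Pool.Agent.Work.MP_3d425c_gt.Gn
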